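import Mathlib

set_option autoImplicit false

namespace Pool.Agent.Results.MP_27f8b5_an.Counter
open Filter Topology Finset

section
variable {H : Type} [NormedAddCommGroup H] [InnerProductSpace ℂ H] [CompleteSpace H]
  (U N : H →L[ℂ] H)

noncomputable def S : H →L[ℂ] H := (-1 / 2 : ℂ) • (1 + U)

noncomputable def T : H →L[ℂ] H := S U + (1 - U) * N

variable {U N}

omit [CompleteSpace H] in
theorem par (hU : ∀ f, ‖U f‖ = ‖f‖) (f : H) :
    ‖(1 - U) f‖ ^ 2 = 4 * (‖f‖ ^ 2 - ‖S U f‖ ^ 2) := by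
  have h := parallelogram_law_with_norm ℂ f (U f)
  have h2 : ‖S U f‖ = ‖f + U f‖ / 2 := by
    simp [S, ← smul_add, norm_smul]; ring
  rw [h2]
  rw [hU] at h
  simp only [sub_apply, one_apply_eq_self]
  linarith

omit [CompleteSpace H] in
theorem S_le (hU : ∀ f, ‖U f‖ = ‖f‖) (f : H) (n : ℕ) : ‖(S U ^ (n + 1)) f‖ ≤ ‖(S U ^ n) f‖ := by
  rw [pow_succ', mul_apply_eq_comp]
  have := par hU ((S U ^ n) f)
  exact le_of_sq_le_sq (by nlinarith [sq_nonneg ‖(1 - U) ((S U ^ n) f)‖]) (norm_nonneg _)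

omit [CompleteSpace H] in
theorem S_le' (hU : ∀ f, ‖U f‖ = ‖f‖) (f : H) (n : ℕ) : ‖(S U ^ n) f‖ ≤ ‖f‖ := by
  induction n with
  | zero => simp
  | succ n ih => exact (S_le hU f n).trans ih

omit [CompleteSpace H] in
theorem tend (hU : ∀ f, ‖U f‖ = ‖f‖) (f : H) :
    Tendsto (fun n => (1 - U) ((S U ^ n) f)) atTop (𝓝 0) := by
  have h1 := tendsto_atTop_ciInf (f := fun n => ‖(S U ^ n) f‖) (antitone_nat_of_succ_le (S_le hU f))
    ⟨0, by rintro _ ⟨n, rfl⟩; exact norm_nonneg ((S U ^ n) f)⟩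
  have h2 := ((h1.pow 2).sub ((h1.comp (tendsto_add_atTop_nat 1)).pow 2)).const_mul 4
  rw [sub_self, mul_zero] at h2
  rw [tendsto_zero_iff_norm_tendsto_zero]
  have h3 := (h2.congr fun n => (by
    rw [par hU, Function.comp_apply, pow_succ' (S U), mul_apply_eq_comp] :
      _ = ‖(1 - U) ((S U ^ n) f)‖ ^ 2)).sqrt
  simpa using h3

omit [CompleteSpace H] in
theorem cS (h : Commute U N) : Commute (S U) N ∧ Commute (S U) (1 - U) :=
  ⟨((Commute.one_left N).add_left h).smul_left _,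
    ((Commute.one_left _).add_left ((Commute.one_right U).sub_right (Commute.refl U))).smul_left _⟩

omit [CompleteSpace H] in
theorem BB (h : Commute U N) (h2 : N * N = 0) : (1 - U) * N * ((1 - U) * N) = 0 := by
  rw [mul_assoc, ← mul_assoc N, ← ((Commute.one_left N).sub_left h).eq, mul_assoc, h2, mul_zero,
    mul_zero]

omit [CompleteSpace H] in
theorem Tpow (h : Commute U N) (h2 : N * N = 0) (n : ℕ) :
    T U N ^ (n + 1) = S U ^ (n + 1) + ((n + 1 : ℕ) : ℂ) • (S U ^ n * ((1 - U) * N)) := by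
  have hc := ((cS h).2.mul_right (cS h).1).eq
  have hb := BB h h2
  induction n with
  | zero => simp [T]
  | succ n ih =>
    rw [pow_succ, ih, T]
    generalize (1 - U) * N = B at *
    simp only [add_mul, mul_add, smul_mul_assoc, mul_assoc, hb, ← hc, mul_zero, smul_zero, add_zero]
    rw [← mul_assoc (S U ^ n), ← pow_succ, ← pow_succ, Nat.cast_succ (n + 1), add_smul _ 1, one_smul,
      add_assoc]

omit [CompleteSpace H] in
theorem Tapp (h : Commute U N) (h2 : N * N = 0) (n : ℕ) (f : H) : (T U N ^ (n + 1)) f =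
    (S U ^ (n + 1)) f + ((n + 1 : ℕ) : ℂ) • (1 - U) ((S U ^ n) (N f)) := by
  rw [Tpow h h2, ← mul_assoc, ((cS h).2.pow_left n).eq]
  rfl

theorem erg (hU : ∀ f, ‖U f‖ = ‖f‖) (h : Commute U N) (h2 : N * N = 0) (f : H) :
    Tendsto (fun n : ℕ => (n : ℂ)⁻¹ • ∑ k ∈ range n, (T U N ^ k) f) atTop (𝓝 0) := by
  have hu : IsUnit (1 - T U N) := by
    have a1 : IsUnit (1 - (-1 / 3 : ℂ) • U) := by
      refine isUnit_one_sub_of_norm_lt_one ?_
      have : ‖U‖ ≤ 1 := U.opNorm_le_bound zero_le_one fun f => by simp [hU]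
      rw [norm_smul]; norm_num; linarith
    have a2 : IsUnit (1 - S U) := by
      have : 1 - S U = algebraMap ℂ _ (3 / 2) * (1 - (-1 / 3 : ℂ) • U) := by
        rw [← Algebra.smul_def, S]; module
      rw [this]
      exact (IsUnit.map _ (Ne.isUnit (by norm_num))).mul a1
    have : 1 - T U N = -((1 - U) * N) + (1 - S U) := by rw [T]; abel
    rw [this]
    exact IsNilpotent.isUnit_add_right_of_commute ⟨2, by rw [neg_sq, sq, BB h h2]⟩ a2
      ((Commute.one_right _).sub_right ((cS h).2.mul_right (cS h).1).symm).neg_left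
  obtain ⟨y, rfl⟩ : ∃ y, (1 - T U N) y = f := by
    obtain ⟨R, hR⟩ := hu.exists_right_inv
    exact ⟨R f, by rw [← mul_apply_eq_comp, hR]; rfl⟩
  have e : ∀ n, ∑ k ∈ range n, (T U N ^ k) ((1 - T U N) y) = y - (T U N ^ n) y := fun n => by
    have := congrArg (· y) (geom_sum_mul_neg (T U N) n)
    simpa [_root_.sum_apply] using this
  simp only [e]
  rw [← tendsto_add_atTop_iff_nat 1]
  have t1 : Tendsto (fun n : ℕ => ((n + 1 : ℕ) : ℂ)⁻¹ • (y - (S U ^ (n + 1)) y)) atTop (𝓝 0) := by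
    refine NormedField.tendsto_zero_smul_of_tendsto_zero_of_bounded
      ((tendsto_inv_atTop_nhds_zero_nat (𝕜 := ℂ)).comp (tendsto_add_atTop_nat 1))
      (isBoundedUnder_of ⟨‖y‖ + ‖y‖, fun n => (norm_sub_le _ _).trans ?_⟩)
    exact add_le_add le_rfl (S_le' hU y _)
  have t2 := t1.sub (tend hU (N y))
  rw [sub_zero] at t2
  refine t2.congr fun n => ?_
  rw [Tapp h h2, ← sub_sub, smul_sub _ (_ - _), smul_smul, inv_mul_cancel₀ (by exact_mod_cast n.succ_ne_zero),
    one_smul]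

noncomputable def r (n : ℕ) : ℝ := n.centralBinom / 4 ^ n

theorem r_succ (n : ℕ) : r (n + 1) = r n * (2 * n + 1) / (2 * n + 2) := by
  have h : ((n + 1 : ℝ)) * (n + 1).centralBinom = 2 * (2 * n + 1) * n.centralBinom := by
    exact_mod_cast Nat.succ_mul_centralBinom_succ n
  simp only [r]
  field_simp
  linear_combination 2 * 4 ^ n * h

theorem r_ge (n : ℕ) : 1 ≤ (4 * n + 1) * r n ^ 2 := by
  induction n with
  | zero => simp [r]
  | succ n ih =>
    refine ih.trans ?_
    rw [r_succ, div_pow, mul_div_assoc', le_div_iff₀ (by positivity)]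
    push_cast
    nlinarith [sq_nonneg (r n)]

omit [CompleteSpace H] in
theorem aS (hU : ∀ f, ‖U f‖ = ‖f‖) (g : H)
    (ho : ∀ j k, j ≠ k → inner ℂ ((U ^ j) g) ((U ^ k) g) = 0) (n : ℕ) :
    ‖(S U ^ n) g‖ ^ 2 = r n * ‖g‖ ^ 2 := by
  have hn : ∀ k, ‖(U ^ k) g‖ = ‖g‖ := fun k => by
    induction k with
    | zero => rfl
    | succ k ih => rw [pow_succ', mul_apply_eq_comp, hU, ih]
  have h1 : ((1 + U) ^ n) g = ∑ k ∈ range (n + 1), (n.choose k : ℂ) • (U ^ k) g := by
    rw [add_comm, (Commute.one_right U).add_pow, _root_.sum_apply]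
    simp [Nat.cast_smul_eq_nsmul]
  have h2 : ∀ s : Finset ℕ, ‖∑ k ∈ s, (n.choose k : ℂ) • (U ^ k) g‖ ^ 2 =
      ∑ k ∈ s, (n.choose k : ℝ) ^ 2 * ‖g‖ ^ 2 := fun s => by
    induction s using Finset.induction_on with
    | empty => simp
    | insert a s ha ih =>
      rw [sum_insert ha, sum_insert ha, sq,
        norm_add_sq_eq_norm_sq_add_norm_sq_of_inner_eq_zero (𝕜 := ℂ), ← sq, ← sq, ih, norm_smul, hn,
        mul_pow]
      · simp
      · rw [inner_sum]
        refine sum_eq_zero fun k hk => ?_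
        rw [inner_smul_left, inner_smul_right, ho a k fun h => ha (h ▸ hk), mul_zero, mul_zero]
  have h3 : ∑ k ∈ range (n + 1), (n.choose k : ℝ) ^ 2 = n.centralBinom := by
    exact_mod_cast Nat.sum_range_choose_sq n
  rw [S, smul_pow, smul_apply, norm_smul, mul_pow, h1, h2, ← sum_mul, h3, r,
    norm_pow, ← pow_mul, mul_comm n, pow_mul]
  norm_num
  rw [one_div_pow]
  ring

omit [CompleteSpace H] in
theorem unb (hU : ∀ f, ‖U f‖ = ‖f‖) (h : Commute U N) (h2 : N * N = 0) (d : H) (hd : N d ≠ 0)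
    (ho : ∀ j k, j ≠ k → inner ℂ ((U ^ j) (N d)) ((U ^ k) (N d)) = 0) :
    ¬ BddAbove (Set.range fun n : ℕ => ‖T U N ^ n‖) := by
  rintro ⟨C, hC⟩
  have hg : 0 < ‖N d‖ ^ 2 := by positivity
  set K := (C * ‖d‖ + ‖d‖) ^ 2 / ‖N d‖ ^ 2
  have k1 : ∀ n : ℕ, 2 * (n + 1) * r n ≤ K := fun n => by
    have a1 : ‖((n + 1 : ℕ) : ℂ) • (1 - U) ((S U ^ n) (N d))‖ ≤ C * ‖d‖ + ‖d‖ := by
      rw [eq_sub_of_add_eq' (Tapp h h2 n d).symm]
      exact (norm_sub_le _ _).trans (add_le_add ((ContinuousLinearMap.le_opNorm _ _).trans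
        (mul_le_mul_of_nonneg_right (hC ⟨_, rfl⟩) (norm_nonneg _))) (S_le' hU d _))
    have a2 := pow_le_pow_left₀ (norm_nonneg _) a1 2
    rw [norm_smul, mul_pow, par hU, ← mul_apply_eq_comp (S U), ← pow_succ', aS hU _ ho,
      aS hU _ ho, r_succ, Complex.norm_natCast] at a2
    rw [le_div_iff₀ hg]
    convert a2 using 1
    push_cast
    field_simp
    ring
  obtain ⟨n, hn⟩ := exists_nat_gt (K ^ 2)
  have a1 := k1 n
  have a2 := r_ge n
  have a3 : 0 ≤ r n := by unfold r; positivity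
  have a4 := pow_le_pow_left₀ (by positivity) a1 2
  have a5 : (0 : ℝ) ≤ n := n.cast_nonneg
  have a6 := mul_le_mul_of_nonneg_left a2 (show (0 : ℝ) ≤ n + 1 by positivity)
  nlinarith [sq_nonneg (r n)]

end

abbrev G : Type := Multiplicative ℤ × Equiv.Perm (Fin 3)
abbrev H : Type := lp (fun _ : G => ℂ) 2

theorem mem (y : G) (f : H) : Memℓp (fun x => f (y⁻¹ * x)) 2 := by
  have := lp.memℓp f
  rw [memℓp_gen_iff (by norm_num)] at this ⊢
  exact (Equiv.mulLeft y⁻¹).summable_iff.2 this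

noncomputable def L0 (y : G) : H →ₗ[ℂ] H where
  toFun f := ⟨fun x => f (y⁻¹ * x), mem y f⟩
  map_add' _ _ := rfl
  map_smul' _ _ := rfl

theorem L0_norm (y : G) (f : H) : ‖L0 y f‖ = ‖f‖ := by
  rw [lp.norm_eq_tsum_rpow (by norm_num), lp.norm_eq_tsum_rpow (by norm_num) f]
  congr 1
  exact (Equiv.mulLeft y⁻¹).tsum_eq fun x => ‖f x‖ ^ (2 : ENNReal).toReal

noncomputable def L (y : G) : H →L[ℂ] H := (L0 y).mkContinuous 1 fun f => by simp [L0_norm]

theorem L_apply (y : G) (f : H) (x : G) : L y f x = f (y⁻¹ * x) := rfl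

theorem L_mul (y z : G) : L y * L z = L (y * z) := by
  ext f x; simp [L_apply, mul_assoc]

def u : G := (Multiplicative.ofAdd 1, 1)
def a : G := (1, Equiv.swap 0 1)
def b : G := (1, Equiv.swap 1 2)

noncomputable def N : H →L[ℂ] H := L b + L (b * a) - L (a * b) - L (a * b * a)

theorem L_one : L 1 = 1 := by ext f x; simp [L_apply]

theorem NN : N * N = 0 := by
  have h : N = (1 - L a) * L b * (1 + L a) := by
    simp only [N, ← L_mul]; noncomm_ring
  have h2 : (1 + L a) * (1 - L a) = 0 := by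
    have : L a * L a = 1 := by rw [L_mul, show a * a = 1 by decide, L_one]
    rw [add_mul, mul_sub, mul_sub, this]; simp
  rw [h, mul_assoc, ← mul_assoc (1 + L a), ← mul_assoc (1 + L a), h2]; simp

theorem cU : Commute (L u) N := by
  have : ∀ y : G, Commute (L u) (L y) := fun y => by
    rw [Commute, SemiconjBy, L_mul, L_mul]
    congr 1
    exact Prod.ext (mul_comm _ _) (by simp [u])
  exact (((this _).add_right (this _)).sub_right (this _)).sub_right (this _)

noncomputable def d : H := lp.single 2 1 1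

theorem Nd (x : G) : N d x = (if b = x then 1 else 0) + (if b * a = x then 1 else 0) -
    (if a * b = x then 1 else 0) - (if a * b * a = x then 1 else 0) := by
  have : ∀ y, L y d x = if y = x then 1 else 0 := fun y => by
    simp [L_apply, d, lp.single_apply, Pi.single_apply, inv_mul_eq_one]
  simp only [← this]
  rfl

theorem Upow (k : ℕ) : L u ^ k = L (u ^ k) := by
  induction k with
  | zero => exact L_one.symm
  | succ k ih => rw [pow_succ, ih, L_mul, pow_succ]

theorem supp (k : ℕ) (x : G) (h : (L u ^ k) (N d) x ≠ 0) : x.1.toAdd = k := by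
  rw [Upow, L_apply, Nd] at h
  by_contra hc
  have : ∀ y : G, y.1 = 1 → y ≠ (u ^ k)⁻¹ * x := fun y hy he => hc (by
    have := congrArg (fun z : G => z.1.toAdd) he
    simp [hy, u] at this
    omega)
  exact h (by rw [if_neg (this _ rfl), if_neg (this _ rfl), if_neg (this _ rfl), if_neg (this _ rfl)]; simp)

theorem aux : (∀ f x, T (L u) N f x = ∑ i, ![-1 / 2, -1 / 2, 1, 1, -1, -1, -1, -1, 1, 1] i *
    f ((![1, u, b, b * a, a * b, a * b * a, u * b, u * (b * a), u * (a * b), u * (a * b * a)] i)⁻¹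
      * x)) ∧ ¬ BddAbove (Set.range fun n : ℕ => ‖T (L u) N ^ n‖) := by
  refine ⟨fun f x => ?_, unb (L0_norm u) cU NN d (fun h => ?_) fun j k hjk => ?_⟩
  · simp [T, S, N, L_apply, Fin.sum_univ_succ, mul_assoc]
    ring
  · have := Nd b
    rw [h, if_pos rfl, if_neg (by decide), if_neg (by decide), if_neg (by decide)] at this
    simp at this
  · rw [lp.inner_eq_tsum]
    convert tsum_zero with x
    by_cases h : (L u ^ j) (N d) x = 0
    · rw [h, inner_zero_left]
    · have : (L u ^ k) (N d) x = 0 := by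
        by_contra h'
        exact hjk (by exact_mod_cast (supp j x h).symm.trans (supp k x h'))
      rw [this, inner_zero_right]

/-- The space `l^2` of a type. -/
def L2 (Γ : Type) : Type := lp (fun _ : Γ => ℂ) 2

noncomputable instance instL2Norm (Γ : Type) : NormedAddCommGroup (L2 Γ) := lp.normedAddCommGroup

noncomputable instance instL2Space (Γ : Type) : NormedSpace ℂ (L2 Γ) := lp.instNormedSpace

/-- The value of an element of `l^2` at a point. -/
def ev {Γ : Type} (f : L2 Γ) (x : Γ) : ℂ := f.1 x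

/-- Cesaro means converge in norm at every vector. -/
def MeanErgodic {E : Type} [NormedAddCommGroup E] [NormedSpace ℂ E] (A : E →L[ℂ] E) : Prop :=
  ∀ f, ∃ g, Tendsto (fun n : ℕ => (n : ℂ)⁻¹ • ∑ k ∈ range n, (A ^ k) f) atTop (𝓝 g)

/-- The norms of the powers are bounded. -/
def PowerBounded {E : Type} [NormedAddCommGroup E] [NormedSpace ℂ E] (A : E →L[ℂ] E) : Prop :=
  BddAbove (Set.range fun n : ℕ => ‖A ^ n‖)

theorem result : ∃ (Γ : Type) (_ : Group Γ) (m : ℕ) (c : Fin m → ℂ) (y : Fin m → Γ)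
    (A : L2 Γ →L[ℂ] L2 Γ), (∀ f x, ev (A f) x = ∑ i, c i * ev f ((y i)⁻¹ * x)) ∧
    MeanErgodic A ∧ ¬ PowerBounded A :=
  ⟨G, inferInstance, 10, _, _, T (L u) N, aux.1, fun f => ⟨0, erg (L0_norm u) cU NN f⟩, aux.2⟩

end Pool.Agent.Results.MP_27f8b5_an.Counter
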